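import Pool.Agent.W495.TC.Stms
import Pool.Agent.W976.TA.Push

/-!
# Project TC: pairs of opposite functions may be removed
-/

set_option autoImplicit false
set_option linter.unusedSectionVars false

namespace Pool.Agent.W99.TC

open NumberField Pool.Agent.H204R3.CM Pool.Agent.W547.KB Pool.Agent.W547.LD Module
open Pool.Agent.W495.TA Pool.Agent.W495.TB Pool.Agent.W495.TC
open Pool.Agent.W976.TA (prodR hQ hQ' frobHom frobHom' bij inlW inrW monoO_det co_ll co_rl co_lr
  co_rr)
open scoped TensorProduct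

noncomputable section

/-! ### combinatorics -/

section comb

variable {G : Type} {Q : (κ : Type) → (κ → G → ℤ) → Prop}

theorem pairs_fin (hcl : Closed G Q) : ∀ (n : ℕ) (g : Fin n → G → ℤ),
    Q (Fin n × Fin 2) (fun x => (![g x.1, -g x.1] : Fin 2 → G → ℤ) x.2) := by
  intro n
  induction n with
  | zero => intro g; exact hcl.empty _ _
  | succ n ih =>
    intro g
    have h := hcl.sum _ _ _ _ (ih (fun i => g i.castSucc)) (hcl.pair (g (Fin.last n)))
    let F : (Fin n × Fin 2) ⊕ Fin 2 → Fin (n + 1) × Fin 2 :=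
      Sum.elim (fun x => (x.1.castSucc, x.2)) (fun b => (Fin.last n, b))
    have hF : Function.Bijective F := by
      constructor
      · rintro (⟨i, b⟩ | b) (⟨i', b'⟩ | b') hh
        · obtain ⟨h1, h2⟩ := Prod.mk.inj hh
          have h3 : i = i' := Fin.castSucc_injective _ h1
          have h4 : b = b' := h2
          rw [h3, h4]
        · have h1 := Prod.mk.inj hh
          exact absurd h1.1 (Fin.castSucc_lt_last i).ne
        · have h1 := Prod.mk.inj hh
          exact absurd h1.1 (Fin.castSucc_lt_last i').ne'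
        · obtain ⟨h1, h2⟩ := Prod.mk.inj hh
          have h4 : b = b' := h2
          rw [h4]
      · rintro ⟨i, b⟩
        refine Fin.lastCases ?_ (fun i => ?_) i
        · exact ⟨Sum.inr b, rfl⟩
        · exact ⟨Sum.inl (i, b), rfl⟩
    refine hcl.reindex _ _ (Equiv.ofBijective F hF) _ _ ?_ h
    rintro (⟨i, b⟩ | b)
    · rfl
    · rfl

theorem pairs (hcl : Closed G Q) (R : Type) [Finite R] (g : R → G → ℤ) :
    Q (R × Fin 2) (fun x => (![g x.1, -g x.1] : Fin 2 → G → ℤ) x.2) := by
  have h := pairs_fin hcl _ (fun i => g ((Finite.equivFin R).symm i))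
  refine hcl.reindex _ _ ((Finite.equivFin R).symm.prodCongr (Equiv.refl (Fin 2))) _ _ ?_ h
  rintro ⟨i, b⟩
  rfl

theorem comb (hcl : Closed G Q) {W : Type} [Finite W] (c : W → W) (hcc : ∀ w, c (c w) = w)
    (hne : ∀ w, c w ≠ w) (f : W → G → ℤ) (hf : ∀ w, f (c w) = -f w) (w0 : W) (κ : Type)
    [Finite κ] (t : κ → G → ℤ) (h : Q (κ ⊕ Fin 2) (Sum.elim t ![f w0, -f w0])) :
    Q (κ ⊕ W) (Sum.elim t f) := by
  let e := Finite.equivFin W
  let R : Type := {w : W // w ≠ w0 ∧ c w ≠ w0 ∧ e w < e (c w)}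
  have hR : Finite R := Subtype.finite
  have h2 := hcl.sum _ _ _ _ h (pairs hcl R (fun r => f r.1))
  let M : Fin 2 ⊕ (R × Fin 2) → W :=
    Sum.elim (![w0, c w0] : Fin 2 → W) (fun x => (![x.1.1, c x.1.1] : Fin 2 → W) x.2)
  have hM : Function.Bijective M := by
    constructor
    · rintro (b | ⟨⟨r, hr1, hr2, hr3⟩, b⟩) (b' | ⟨⟨r', hr1', hr2', hr3'⟩, b'⟩) hh
      · fin_cases b <;> fin_cases b'
        · rfl
        · exact absurd hh.symm (hne w0)
        · exact absurd hh (hne w0)
        · rfl
      · exfalso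
        fin_cases b <;> fin_cases b'
        · exact hr1' hh.symm
        · exact hr2' hh.symm
        · have h3 : c w0 = r' := hh
          exact hr2' (by rw [← h3, hcc])
        · have h3 : c w0 = c r' := hh
          exact hr1' (by rw [← hcc r', ← h3, hcc])
      · exfalso
        fin_cases b <;> fin_cases b'
        · exact hr1 hh
        · have h3 : r = c w0 := hh
          exact hr2 (by rw [h3, hcc])
        · exact hr2 hh
        · have h3 : c r = c w0 := hh
          exact hr1 (by rw [← hcc r, h3, hcc])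
      · fin_cases b <;> fin_cases b'
        · have h3 : r = r' := hh
          subst h3; rfl
        · exfalso
          have h3 : r = c r' := hh
          subst h3
          rw [hcc] at hr3
          exact lt_asymm hr3 hr3'
        · exfalso
          have h3 : c r = r' := hh
          subst h3
          rw [hcc] at hr3'
          exact lt_asymm hr3 hr3'
        · have h3 : c r = c r' := hh
          have h4 : r = r' := by rw [← hcc r, h3, hcc]
          subst h4; rfl
    · intro w
      by_cases h3 : w = w0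
      · exact ⟨Sum.inl 0, h3.symm⟩
      · by_cases h4 : c w = w0
        · exact ⟨Sum.inl 1, by change c w0 = w; rw [← h4, hcc]⟩
        · rcases lt_trichotomy (e w) (e (c w)) with h5 | h5 | h5
          · exact ⟨Sum.inr (⟨w, h3, h4, h5⟩, 0), rfl⟩
          · exact absurd (e.injective h5).symm (hne w)
          · exact ⟨Sum.inr (⟨c w, h4, by rw [hcc]; exact h3, by rw [hcc]; exact h5⟩, 1), hcc w⟩
  refine hcl.reindex _ _ ((Equiv.sumAssoc κ (Fin 2) (R × Fin 2)).trans
    (Equiv.sumCongr (Equiv.refl κ) (Equiv.ofBijective M hM))) _ _ ?_ h2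
  rintro ((k | b) | ⟨r, b⟩)
  · rfl
  · fin_cases b
    · rfl
    · exact hf w0
  · fin_cases b
    · rfl
    · exact hf r.1

end comb

/-! ### push-forward -/

theorem pushG (hbasis : S_basis) (p : ℕ) [Fact p.Prime] (ν : PadicAlgCl p ≃+* ℂ) (Ω : Type)
    [Field Ω] [CharZero Ω] (L : Type) [Field L] [NumberField L] [IsCMField L] [IsGalois ℚ L]
    (j : L →+* ℂ) (jO : L →+* Ω) (E : RedAV p ν) (hE : Big E.X j) (κ : Type) [Finite κ]
    (t : κ → (L ≃ₐ[ℚ] L) → ℤ)
    (hA : AlgM p ν j jO (κ ⊕ Wt E.X L) (Sum.elim t fun w => tf p ν j (St j w))) :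
    AlgM p ν j jO κ t := by
  intro _ _ Y hY I hI
  classical
  have hfin : Finite (Wt E.X L) := finite_wt j hE
  let _ : Fintype (Wt E.X L) := Fintype.ofFinite _
  obtain ⟨e, he1, he2⟩ := hbasis p ν Ω L j jO E hE
  have hbig : Big (prodR Y E).X j := by
    rintro (i | i) ψ
    · exact hY i ψ
    · exact hE i ψ
  have hf := hA (prodR Y E) hbig (Sum.elim (fun k => inlW (I k)) (fun w => inrW w)) (by
    rintro (k | w)
    · exact hI k
    · rfl)
  refine Alg.push ((hQ Y E).baseChange Ω) ((hQ' Y E).baseChange Ω) (frobHom Y E Ω)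
    (frobHom' Y E Ω) (bij Y E Ω) e _ hf _ fun v => ?_
  rw [monoO_det, monoO_det]
  have h1 : (Matrix.of fun k l => co jO
      (Sum.elim (fun k => inlW (I k)) (fun w => inrW w) l)
      (Sum.elim (fun k => (hQ Y E).baseChange Ω (v k))
        (fun k => (hQ' Y E).baseChange Ω (e k)) k)) =
      Matrix.fromBlocks (Matrix.of fun k l => co jO (I l) (v k)) 0 0 1 := by
    ext k l
    rcases k with k | k <;> rcases l with l | l
    · exact co_ll jO (I l) (v k)
    · exact co_rl jO l (v k)
    · exact co_lr jO (I l) _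
    · simp only [Matrix.of_apply, Sum.elim_inr, Matrix.fromBlocks_apply₂₂]
      rw [co_rr]
      by_cases hkl : k = l
      · subst hkl
        rw [he1, Matrix.one_apply_eq]
      · rw [he2 _ _ (fun h => hkl h.symm), Matrix.one_apply_ne hkl]
  rw [h1, Matrix.det_fromBlocks_zero₂₁, Matrix.det_one, mul_one]

theorem cancel : S_cancel := by
  intro hhonda hval hru hbasis hcl p _ ν Ω _ _ L _ _ _ _ j jO S hS κ _ t hQ
  obtain ⟨a, π, ha, hπ⟩ := hhonda hval p ν L j S hS
  let x : Fin 1 → Set (L ≃ₐ[ℚ] L) := fun _ => S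
  have hx : ∀ q, IsHalf (x q) := fun _ => hS
  let E : RedAV p ν :=
    { X := prodOf j x hx
      a := a
      pos := ha
      π := fun _ => π
      frob := fun _ => hπ }
  have hE : Big E.X j := by
    intro q ψ
    obtain ⟨τ, hτ⟩ := exists_embC j (x q) ψ
    exact ⟨emb (x q) τ, hτ.symm⟩
  have hfin : Finite (Wt E.X L) := finite_wt j hE
  obtain ⟨c1, c2, c3, c4⟩ := hcl hval hru p ν Ω L j jO
  have hclosed : Closed (L ≃ₐ[ℚ] L) (AlgM p ν j jO) := ⟨c1, c2, c3, c4⟩
  let w0 : Wt E.X L := wt j x hx 0 1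
  have hw0 : St j w0 = S := by
    have h1 : St j w0 = tr 1 (x 0) := St_wt j x hx 0 1
    rw [h1, tr_one]
  have key := comb hclosed (fun w : Wt E.X L => cc L • w) (fun w => by
      change cc L • cc L • w = w
      rw [← mul_smul, cc_cc, one_smul]) (fun w => cc_ne_wt j E.X w)
    (fun w => tf p ν j (St j w)) (fun w => by
      funext h
      exact tf_cc_wt j E.X w h) w0 κ t
  have h2 := @key (by rw [hw0]; exact @hQ)
  exact @pushG @hbasis p _ ν Ω _ _ L _ _ _ _ j jO E hE κ _ t @h2

end

end Pool.Agent.W99.TC
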